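import Mathlib

set_option autoImplicit false

namespace Pool.Agent.Results.MP_2d49c6_co.Full

open Finset

/-- `c` is a FAT `k`-colouring of `G` with parameter `α`. -/
def IsFAT {V : Type} [Fintype V] (G : SimpleGraph V) [DecidableRel G.Adj] (k : ℕ) (c : V → Fin k)
    (α : ℝ) : Prop :=
  Function.Surjective c ∧ 0 ≤ α ∧ α ≤ 1 ∧ ∀ (v : V) (i : Fin k),
    (((G.neighborFinset v).filter fun w => c w = i).card : ℝ) =
      if c v = i then (1 - ((k : ℝ) - 1) * α) * G.degree v else α * G.degree v

theorem sym_set (P t : ℕ) (h : 2 * t < P) : ∃ S : Finset (ZMod P), 0 ∉ S ∧ (∀ x ∈ S, -x ∈ S) ∧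
    S.card = 2 * t ∧ (0 < t → 1 ∈ S) := by
  have key : ∀ a : ℤ, |a| < P → (a : ZMod P) = 0 → a = 0 := fun a h1 h2 =>
    Int.eq_zero_of_abs_lt_dvd ((ZMod.intCast_zmod_eq_zero_iff_dvd a P).1 h2) h1
  refine ⟨((Icc (-(t : ℤ)) t).erase 0).image Int.cast, ?_, ?_, ?_, ?_⟩
  · simp only [mem_image, mem_erase, mem_Icc, not_exists, not_and]
    rintro a ⟨h1, h2⟩ h3
    exact h1 (key a (by rw [abs_lt]; omega) h3)
  · simp only [mem_image, mem_erase, mem_Icc]
    rintro x ⟨a, h1, rfl⟩
    exact ⟨-a, by omega, by simp⟩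
  · rw [card_image_of_injOn, card_erase_of_mem (by simp), Int.card_Icc]
    · omega
    · intro a ha b hb hab
      simp only [coe_erase, coe_Icc, Set.mem_diff, Set.mem_Icc] at ha hb
      have := key (a - b) (by rw [abs_lt]; omega) (by simp [hab])
      omega
  · intro ht
    exact mem_image.2 ⟨1, by simp; omega, by simp⟩

theorem upper {V : Type} [Fintype V] [DecidableEq V] (G : SimpleGraph V) [DecidableRel G.Adj]
    (hc : G.Connected) (d : ℕ) (hd : ∀ v, G.degree v = d) (hd0 : 0 < d) (j : ℕ) (hj : 2 ≤ j)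
    (c : V → Fin j) (a : ℝ) (h : IsFAT G j c a) : j ≤ d + 1 ∧ j ∣ Fintype.card V := by
  obtain ⟨hs, h0, -, h⟩ := h
  have hpos : 1 ≤ a * d := by
    by_contra hlt
    have key : ∀ u v, G.Adj u v → c u = c v := by
      intro u v huv
      by_contra hne
      have h1 := h u (c v)
      rw [if_neg hne, hd] at h1
      have h2 : 0 < ((G.neighborFinset u).filter fun w => c w = c v).card :=
        card_pos.2 ⟨v, by simp [huv]⟩
      have h3 : (1 : ℝ) ≤ ((G.neighborFinset u).filter fun w => c w = c v).card := by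
        exact_mod_cast h2
      linarith
    obtain ⟨u, hu⟩ := hs ⟨0, by omega⟩
    obtain ⟨v, hv⟩ := hs ⟨1, by omega⟩
    obtain ⟨w⟩ := hc u v
    have : ∀ {x y : V} (_ : G.Walk x y), c x = c y := by
      intro x y w
      induction w with
      | nil => rfl
      | cons h _ ih => exact (key _ _ h).trans ih
    have := this w
    rw [hu, hv] at this
    simp at this
  constructor
  · obtain ⟨u, -⟩ := hs ⟨0, by omega⟩
    have h1 := h u (c u)
    rw [if_pos rfl, hd] at h1
    have h2 : (0 : ℝ) ≤ ((G.neighborFinset u).filter fun w => c w = c u).card := by positivity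
    have h3 : (2 : ℝ) ≤ j := by exact_mod_cast hj
    have : (j : ℝ) ≤ d + 1 := by nlinarith
    exact_mod_cast this
  · have key : ∀ i l : Fin j, i ≠ l → ((univ.filter fun v => c v = i).card : ℝ) * (a * d) =
        ∑ v, ∑ w, if c v = i ∧ c w = l ∧ G.Adj v w then (1 : ℝ) else 0 := by
      intro i l hil
      rw [← nsmul_eq_mul, ← sum_const, sum_filter]
      refine sum_congr rfl fun v _ => ?_
      split_ifs with hv
      · have := h v l
        rw [if_neg (hv ▸ hil), hd] at this
        rw [← this, sum_boole]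
        congr 2
        ext w
        simp [hv, and_comm]
      · simp [hv]
    have h1 : ∀ i, (univ.filter fun v => c v = i).card =
        (univ.filter fun v => c v = ⟨0, by omega⟩).card := by
      intro i
      by_cases hi : i = ⟨0, by omega⟩
      · rw [hi]
      have e1 := key _ _ hi
      have e2 := key _ _ (Ne.symm hi)
      rw [sum_comm] at e2
      have e3 : ((univ.filter fun v => c v = i).card : ℝ) * (a * d) =
          (univ.filter fun v => c v = ⟨0, by omega⟩).card * (a * d) := by
        rw [e1, e2]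
        refine sum_congr rfl fun v _ => sum_congr rfl fun w _ => if_congr ?_ rfl rfl
        rw [G.adj_comm]; tauto
      exact_mod_cast mul_right_cancel₀ (by linarith) e3
    rw [← card_univ, card_eq_sum_card_fiberwise (f := c) (t := univ) fun _ _ => mem_univ _,
      sum_congr rfl fun i _ => h1 i]
    simp

theorem result (k : ℕ) (hk : 2 ≤ k) (α : ℚ) (h0 : 0 < α) (h1 : α ≤ 1 / ((k : ℚ) - 1)) :
    ∃ (V : Type) (_ : Fintype V) (G : SimpleGraph V) (_ : DecidableRel G.Adj),
      G.Connected ∧ 2 ≤ Fintype.card V ∧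
      IsGreatest {j : ℕ | ∃ (c : V → Fin j) (a : ℝ), IsFAT G j c a} k ∧
      ∃ c : V → Fin k, IsFAT G k c (α : ℝ) := by
  classical
  obtain ⟨k, rfl⟩ : ∃ k', k = k' + 1 := ⟨k - 1, by omega⟩
  obtain ⟨p, hp⟩ : ∃ p : ℕ, α.num = p := ⟨α.num.toNat, by have := Rat.num_pos.2 h0; omega⟩
  have hp0 : 0 < p := by have := Rat.num_pos.2 h0; omega
  have hq0 : (0 : ℚ) < α.den := by exact_mod_cast α.den_pos
  have hα : α * α.den = p := by rw [Rat.mul_den_eq_num, hp]; simp
  have hk0 : (0 : ℚ) < k := by exact_mod_cast (by omega : 0 < k)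
  have hkp : k * p ≤ α.den := by
    rw [show (((k + 1 : ℕ) : ℚ) - 1) = k by push_cast; ring, le_div_iff₀ hk0] at h1
    have : (k : ℚ) * p ≤ α.den := by rw [← hα]; nlinarith
    exact_mod_cast this
  obtain ⟨b, hb⟩ := Nat.exists_eq_add_of_le hkp
  obtain ⟨P, hP, hP'⟩ := Nat.exists_infinite_primes (2 * α.den + 2)
  haveI := Fact.mk hP'
  have hkp' : p ≤ k * p := Nat.le_mul_of_pos_left _ (by omega)
  obtain ⟨S, s1, s2, s3, s4⟩ := sym_set P p (by omega)
  obtain ⟨T, t1, t2, t3, -⟩ := sym_set P b (by omega)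
  let G : SimpleGraph (Fin (k + 1) × ZMod P) :=
    { Adj := fun x y => y.2 - x.2 ∈ (if x.1 = y.1 then T else S)
      symm := ⟨fun x y h => by
        rw [← neg_sub]
        by_cases e : x.1 = y.1
        · rw [if_pos e] at h; rw [if_pos e.symm]; exact t2 _ h
        · rw [if_neg e] at h; rw [if_neg (Ne.symm e)]; exact s2 _ h⟩
      loopless := ⟨fun x h => by simp [t1] at h⟩ }
  have hcnt : ∀ v i, ((G.neighborFinset v).filter fun w => w.1 = i).card =
      if v.1 = i then 2 * b else 2 * p := by
    intro v i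
    rw [show (if v.1 = i then 2 * b else 2 * p) = (if v.1 = i then T else S).card by
      split_ifs <;> simp [*]]
    refine card_bij (fun w _ => w.2 - v.2) ?_ ?_ ?_
    · intro w hw
      simp only [mem_filter, SimpleGraph.mem_neighborFinset] at hw
      rw [← hw.2]; exact hw.1
    · intro w hw x hx h
      exact Prod.ext ((mem_filter.1 hw).2.trans (mem_filter.1 hx).2.symm) (by simpa using h)
    · intro z hz
      exact ⟨(i, z + v.2), by simpa [G] using hz, by simp⟩
  have hdeg : ∀ v, G.degree v = 2 * α.den := by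
    intro v
    rw [← SimpleGraph.card_neighborFinset_eq_degree, card_eq_sum_card_fiberwise (f := Prod.fst)
      (t := univ) fun _ _ => mem_univ _, sum_congr rfl fun i _ => hcnt v i,
      ← add_sum_erase _ _ (mem_univ v.1), if_pos rfl,
      sum_congr rfl fun i hi => if_neg (ne_of_mem_erase hi).symm]
    simp [hb]; ring
  have hstep : ∀ i j : Fin (k + 1), i ≠ j → ∀ x, G.Reachable (i, x) (j, x + 1) := fun i j h x =>
    SimpleGraph.Adj.reachable (by simpa [G, h] using s4 hp0)
  have hsame : ∀ i x y, G.Reachable (i, x) (i, y) := by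
    intro i x y
    haveI : Nontrivial (Fin (k + 1)) := Fin.nontrivial_iff_two_le.2 hk
    obtain ⟨j, hj⟩ := exists_ne i
    have h2 : ∀ n : ℕ, G.Reachable (i, x) (i, x + 2 * n) := by
      intro n
      induction n with
      | zero => simp
      | succ n ih =>
        have := (ih.trans (hstep i j hj.symm _)).trans (hstep j i hj _)
        convert this using 2
        push_cast; ring
    have h3 : (2 : ZMod P) ≠ 0 := by
      intro h
      have := Nat.le_of_dvd two_pos ((ZMod.natCast_eq_zero_iff 2 P).1 (by exact_mod_cast h))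
      have := α.den_pos
      omega
    have := h2 ((y - x) / 2).val
    rwa [ZMod.natCast_zmod_val, mul_div_cancel₀ _ h3, add_sub_cancel] at this
  have hconn : G.Connected := by
    refine ⟨fun ⟨i, x⟩ ⟨j, y⟩ => ?_⟩
    by_cases h : i = j
    · subst h; exact hsame _ _ _
    · exact (hstep i j h x).trans (hsame _ _ _)
  have hfat : IsFAT G (k + 1) Prod.fst α := by
    have e1 : (α : ℝ) * α.den = p := by exact_mod_cast hα
    have e2 : (α.den : ℝ) = k * p + b := by exact_mod_cast hb
    refine ⟨fun i => ⟨(i, 0), rfl⟩, by exact_mod_cast h0.le, ?_, fun v i => ?_⟩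
    · have : α ≤ 1 := by
        have : (p : ℚ) ≤ α.den := by exact_mod_cast hkp'.trans hkp
        nlinarith
      exact_mod_cast this
    · rw [hcnt, hdeg]
      split_ifs
      · push_cast; linear_combination -2 * e2 + 2 * k * e1
      · push_cast; linear_combination -2 * e1
  refine ⟨_, inferInstance, G, inferInstance, hconn, ?_, ⟨⟨_, _, hfat⟩, ?_⟩, _, hfat⟩
  · rw [Fintype.card_prod, Fintype.card_fin, ZMod.card]
    nlinarith
  · rintro j ⟨c, a, h⟩
    by_contra hj
    obtain ⟨h3, h4⟩ := upper G hconn _ hdeg (by have := α.den_pos; omega) j (by omega) c a h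
    rw [Fintype.card_prod, Fintype.card_fin, ZMod.card] at h4
    have h5 : Nat.Coprime j P := (Nat.coprime_of_lt_prime (by omega) (by omega) hP').symm
    exact hj (Nat.le_of_dvd (by omega) (h5.dvd_of_dvd_mul_right h4))

end Pool.Agent.Results.MP_2d49c6_co.Full
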